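import Pool.Agent.Helper20.Griff.Goals

/-!
# Packet G-A2: the map `T` is positive
-/

open MvPolynomial Pool.Agent.Helper94.Griff Pool.Agent.Helper20.Griff
open scoped ContDiff ComplexOrder Matrix

namespace Pool.Agent.Helper75.GriffCE

/-! ### Linearity -/

section lin

variable {R : Type*} [CommRing R]

theorem coordMat_add (X Y : Matrix (Fin 6) (Fin 6) R) :
    coordMat (X + Y) = coordMat X + coordMat Y := by
  funext i
  fin_cases i <;> simp [coordMat] <;> ring

theorem coordMat_smul (c : R) (X : Matrix (Fin 6) (Fin 6) R) :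
    coordMat (c • X) = c • coordMat X := by
  funext i
  fin_cases i <;> simp [coordMat] <;> ring

theorem reflect_add (v w : Fin 15 → R) : reflect (v + w) = reflect v + reflect w := by
  funext i
  fin_cases i <;> simp [reflect] <;> ring

theorem reflect_smul (c : R) (v : Fin 15 → R) : reflect (c • v) = c • reflect v := by
  funext i
  fin_cases i <;> simp [reflect] <;> ring

theorem quatMat_add (v w : Fin 15 → R) : quatMat (v + w) = quatMat v + quatMat w := by
  ext i j
  fin_cases i <;> fin_cases j <;> simp [quatMat] <;> ring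

theorem quatMat_smul (c : R) (v : Fin 15 → R) : quatMat (c • v) = c • quatMat v := by
  ext i j
  fin_cases i <;> fin_cases j <;> simp [quatMat]

theorem quatMat_reflect (v : Fin 15 → R) :
    quatMat (reflect v) = (v 0 + v 1 + v 2) • (1 : Matrix (Fin 6) (Fin 6) R) - quatMat v := by
  ext i j
  fin_cases i <;> fin_cases j <;> simp [quatMat, reflect] <;> ring

theorem blk₁_add (X Y : Matrix (Fin 12) (Fin 12) R) : blk₁ (X + Y) = blk₁ X + blk₁ Y := rfl

theorem blk₂_add (X Y : Matrix (Fin 12) (Fin 12) R) : blk₂ (X + Y) = blk₂ X + blk₂ Y := rfl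

theorem blk₁_smul (c : R) (X : Matrix (Fin 12) (Fin 12) R) : blk₁ (c • X) = c • blk₁ X := rfl

theorem blk₂_smul (c : R) (X : Matrix (Fin 12) (Fin 12) R) : blk₂ (c • X) = c • blk₂ X := rfl

/-- The block diagonal matrix. -/
def blkd (A D : Matrix (Fin 6) (Fin 6) R) : Matrix (Fin 12) (Fin 12) R :=
  Matrix.reindex finSumFinEquiv finSumFinEquiv (Matrix.fromBlocks A 0 0 D)

theorem blkd_add (A D A' D' : Matrix (Fin 6) (Fin 6) R) :
    blkd (A + A') (D + D') = blkd A D + blkd A' D' := by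
  have h : Matrix.fromBlocks (A + A') 0 0 (D + D') =
      Matrix.fromBlocks A 0 0 D + Matrix.fromBlocks A' 0 0 D' := by
    rw [Matrix.fromBlocks_add]
    simp
  unfold blkd
  rw [h]
  rfl

theorem blkd_smul (c : R) (A D : Matrix (Fin 6) (Fin 6) R) :
    blkd (c • A) (c • D) = c • blkd A D := by
  have h : Matrix.fromBlocks (c • A) 0 0 (c • D) = c • Matrix.fromBlocks A 0 0 D := by
    rw [Matrix.fromBlocks_smul]
    simp
  unfold blkd
  rw [h]
  rfl

theorem Tmat_eq (X : Matrix (Fin 12) (Fin 12) R) :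
    Tmat X = blkd (quatMat (coordMat (blk₁ X)) + quatMat (coordMat (blk₂ X)))
      (quatMat (reflect (coordMat (blk₁ X))) + quatMat (coordMat (blk₂ X))) := by
  rw [← quatMat_add, ← quatMat_add]
  rfl

theorem Tmat_add (X Y : Matrix (Fin 12) (Fin 12) R) : Tmat (X + Y) = Tmat X + Tmat Y := by
  rw [Tmat_eq, Tmat_eq, Tmat_eq, blk₁_add, blk₂_add, coordMat_add, coordMat_add, reflect_add,
    quatMat_add, quatMat_add, quatMat_add, ← blkd_add]
  congr 1 <;> abel

theorem Tmat_smul (c : R) (X : Matrix (Fin 12) (Fin 12) R) : Tmat (c • X) = c • Tmat X := by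
  rw [Tmat_eq, Tmat_eq, blk₁_smul, blk₂_smul, coordMat_smul, coordMat_smul, reflect_smul,
    quatMat_smul, quatMat_smul, quatMat_smul, ← blkd_smul, smul_add, smul_add]

/-- `Tmat` as a linear map. -/
def Tlin : Matrix (Fin 12) (Fin 12) R →ₗ[R] Matrix (Fin 12) (Fin 12) R where
  toFun := Tmat
  map_add' := Tmat_add
  map_smul' := Tmat_smul

end lin

/-! ### Conjugate transpose -/

/-- The effect of the conjugate transpose on the coordinates. -/
noncomputable def vstar (v : Fin 15 → ℂ) : Fin 15 → ℂ :=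
  ![star (v 0), star (v 1), star (v 2), star (v 6), - star (v 5), - star (v 4), star (v 3),
    star (v 10), - star (v 9), - star (v 8), star (v 7),
    star (v 14), - star (v 13), - star (v 12), star (v 11)]

theorem quatMat_conj (v : Fin 15 → ℂ) : (quatMat v)ᴴ = quatMat (vstar v) := by
  ext i j
  fin_cases i <;> fin_cases j <;> simp [quatMat, vstar]

theorem coordMat_conj (X : Matrix (Fin 6) (Fin 6) ℂ) : coordMat Xᴴ = vstar (coordMat X) := by
  funext i
  fin_cases i <;> simp [coordMat, vstar, Matrix.conjTranspose_apply] <;> ring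

theorem reflect_vstar (v : Fin 15 → ℂ) : reflect (vstar v) = vstar (reflect v) := by
  funext i
  fin_cases i <;> simp [reflect, vstar]

theorem blkd_conj (A D : Matrix (Fin 6) (Fin 6) ℂ) : (blkd A D)ᴴ = blkd Aᴴ Dᴴ := by
  unfold blkd
  rw [Matrix.conjTranspose_reindex, Matrix.fromBlocks_conjTranspose]
  simp

theorem Tmat_conj (X : Matrix (Fin 12) (Fin 12) ℂ) : (Tmat X)ᴴ = Tmat Xᴴ := by
  have h1 : blk₁ Xᴴ = (blk₁ X)ᴴ := rfl
  have h2 : blk₂ Xᴴ = (blk₂ X)ᴴ := rfl
  rw [Tmat_eq, Tmat_eq, blkd_conj, Matrix.conjTranspose_add, Matrix.conjTranspose_add,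
    quatMat_conj, quatMat_conj, quatMat_conj, h1, h2, coordMat_conj, coordMat_conj, reflect_vstar]

/-! ### Positivity -/

/-- The vector `J ȳ`. -/
noncomputable def jv (y : Fin 6 → ℂ) : Fin 6 → ℂ :=
  ![star (y 1), - star (y 0), star (y 3), - star (y 2), star (y 5), - star (y 4)]

theorem quad1 (y s : Fin 6 → ℂ) :
    star s ⬝ᵥ (quatMat (coordMat (Matrix.vecMulVec y (star y)))).mulVec s =
      (star s ⬝ᵥ y) * (star y ⬝ᵥ s) + (star s ⬝ᵥ jv y) * (star (jv y) ⬝ᵥ s) := by
  simp [Matrix.mulVec, dotProduct, Fin.sum_univ_six, quatMat, coordMat, Matrix.vecMulVec, jv]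
  ring

theorem tr1 (y : Fin 6 → ℂ) :
    coordMat (Matrix.vecMulVec y (star y)) 0 + coordMat (Matrix.vecMulVec y (star y)) 1 +
      coordMat (Matrix.vecMulVec y (star y)) 2 = star y ⬝ᵥ y := by
  simp [dotProduct, Fin.sum_univ_six, coordMat, Matrix.vecMulVec]
  ring

theorem sdot (a b : Fin 6 → ℂ) : star a ⬝ᵥ b = star (star b ⬝ᵥ a) := by
  simp [dotProduct, mul_comm]

theorem jv_self (y : Fin 6 → ℂ) : star (jv y) ⬝ᵥ jv y = star y ⬝ᵥ y := by
  simp [dotProduct, Fin.sum_univ_six, jv]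
  ring

theorem jv_orth (y : Fin 6 → ℂ) : star y ⬝ᵥ jv y = 0 := by
  simp [dotProduct, Fin.sum_univ_six, jv]
  ring

theorem jv_orth' (y : Fin 6 → ℂ) : star (jv y) ⬝ᵥ y = 0 := by
  rw [sdot, jv_orth, star_zero]

theorem nn (α : ℂ) : (0 : ℂ) ≤ star α * α := star_mul_self_nonneg α

theorem quad1_nonneg (y s : Fin 6 → ℂ) :
    0 ≤ star s ⬝ᵥ (quatMat (coordMat (Matrix.vecMulVec y (star y)))).mulVec s := by
  rw [quad1, sdot s y, sdot s (jv y)]
  exact add_nonneg (nn _) (nn _)

theorem dotProduct_star_self_nonneg_aux (y : Fin 6 → ℂ) : 0 ≤ star y ⬝ᵥ y :=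
  Finset.sum_nonneg fun i _ => star_mul_self_nonneg (y i)

theorem bessel (y t : Fin 6 → ℂ) :
    0 ≤ (star y ⬝ᵥ y) * (star t ⬝ᵥ t) -
      ((star t ⬝ᵥ y) * (star y ⬝ᵥ t) + (star t ⬝ᵥ jv y) * (star (jv y) ⬝ᵥ t)) := by
  set N := star y ⬝ᵥ y with hN
  set T := star t ⬝ᵥ t with hT
  set α := star y ⬝ᵥ t with hα
  set β := star (jv y) ⬝ᵥ t with hβ
  have hN0 : 0 ≤ N := dotProduct_star_self_nonneg_aux y
  have hNs : star N = N := by rw [hN, ← sdot]
  have e1 : star t ⬝ᵥ y = star α := by rw [hα, sdot]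
  have e2 : star t ⬝ᵥ jv y = star β := by rw [hβ, sdot]
  have hw := dotProduct_star_self_nonneg_aux (N • t - α • y - β • jv y)
  have key : star (N • t - α • y - β • jv y) ⬝ᵥ (N • t - α • y - β • jv y) =
      N * (N * T - (star α * α + star β * β)) := by
    rw [star_sub, star_sub, star_smul, star_smul, star_smul]
    simp only [sub_dotProduct, dotProduct_sub, smul_dotProduct, dotProduct_smul, smul_eq_mul]
    rw [← hN, ← hT, ← hα, ← hβ, e1, e2, jv_self, jv_orth, jv_orth', hNs, ← hN]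
    ring
  rw [key] at hw
  rw [e1, e2]
  rcases hN0.eq_or_lt with h0 | h0
  · have hy : y = 0 := by
      have : star y ⬝ᵥ y = 0 := by rw [← hN, ← h0]
      exact (dotProduct_star_self_eq_zero (v := y)).1 this
    have ha : α = 0 := by rw [hα, hy]; simp
    have hb : β = 0 := by
      rw [hβ, hy]
      simp [dotProduct, Fin.sum_univ_six, jv]
    rw [ha, hb, ← h0]
    simp
  · exact le_of_mul_le_mul_left (by simpa using hw) h0

theorem quad2_nonneg (y t : Fin 6 → ℂ) :
    0 ≤ star t ⬝ᵥ (quatMat (reflect (coordMat (Matrix.vecMulVec y (star y))))).mulVec t := by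
  rw [quatMat_reflect, tr1, Matrix.sub_mulVec, dotProduct_sub, quad1, Matrix.smul_mulVec,
    Matrix.one_mulVec, dotProduct_smul, smul_eq_mul]
  exact bessel y t

section entries

variable (A D : Matrix (Fin 6) (Fin 6) ℂ) (i j : Fin 6)

theorem blkd_ll : blkd A D (Fin.castAdd 6 i) (Fin.castAdd 6 j) = A i j := by
  change Matrix.fromBlocks A 0 0 D (finSumFinEquiv.symm (Fin.castAdd 6 i))
    (finSumFinEquiv.symm (Fin.castAdd 6 j)) = _
  rw [finSumFinEquiv_symm_apply_castAdd, finSumFinEquiv_symm_apply_castAdd]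
  rfl

theorem blkd_lr : blkd A D (Fin.castAdd 6 i) (Fin.natAdd 6 j) = 0 := by
  change Matrix.fromBlocks A 0 0 D (finSumFinEquiv.symm (Fin.castAdd 6 i))
    (finSumFinEquiv.symm (Fin.natAdd 6 j)) = _
  rw [finSumFinEquiv_symm_apply_castAdd, finSumFinEquiv_symm_apply_natAdd]
  rfl

theorem blkd_rl : blkd A D (Fin.natAdd 6 i) (Fin.castAdd 6 j) = 0 := by
  change Matrix.fromBlocks A 0 0 D (finSumFinEquiv.symm (Fin.natAdd 6 i))
    (finSumFinEquiv.symm (Fin.castAdd 6 j)) = _
  rw [finSumFinEquiv_symm_apply_castAdd, finSumFinEquiv_symm_apply_natAdd]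
  rfl

theorem blkd_rr : blkd A D (Fin.natAdd 6 i) (Fin.natAdd 6 j) = D i j := by
  change Matrix.fromBlocks A 0 0 D (finSumFinEquiv.symm (Fin.natAdd 6 i))
    (finSumFinEquiv.symm (Fin.natAdd 6 j)) = _
  rw [finSumFinEquiv_symm_apply_natAdd, finSumFinEquiv_symm_apply_natAdd]
  rfl

end entries

theorem blkd_quad (A D : Matrix (Fin 6) (Fin 6) ℂ) (u : Fin 12 → ℂ) :
    star u ⬝ᵥ (blkd A D).mulVec u =
      star (fun i => u (Fin.castAdd 6 i)) ⬝ᵥ A.mulVec (fun i => u (Fin.castAdd 6 i)) +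
      star (fun i => u (Fin.natAdd 6 i)) ⬝ᵥ D.mulVec (fun i => u (Fin.natAdd 6 i)) := by
  have h1 : ∀ i : Fin 6, (blkd A D).mulVec u (Fin.castAdd 6 i) =
      A.mulVec (fun i => u (Fin.castAdd 6 i)) i := by
    intro i
    simp only [Matrix.mulVec, dotProduct]
    refine (Fin.sum_univ_add (a := 6) (b := 6) _).trans ?_
    simp only [blkd_ll, blkd_lr, blkd_rl, blkd_rr, zero_mul, Finset.sum_const_zero, add_zero,
      zero_add]
  have h2 : ∀ i : Fin 6, (blkd A D).mulVec u (Fin.natAdd 6 i) =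
      D.mulVec (fun i => u (Fin.natAdd 6 i)) i := by
    intro i
    simp only [Matrix.mulVec, dotProduct]
    refine (Fin.sum_univ_add (a := 6) (b := 6) _).trans ?_
    simp only [blkd_ll, blkd_lr, blkd_rl, blkd_rr, zero_mul, Finset.sum_const_zero, add_zero,
      zero_add]
  have h3 : star u ⬝ᵥ (blkd A D).mulVec u =
      ∑ i : Fin 6, star u (Fin.castAdd 6 i) * (blkd A D).mulVec u (Fin.castAdd 6 i) +
      ∑ i : Fin 6, star u (Fin.natAdd 6 i) * (blkd A D).mulVec u (Fin.natAdd 6 i) := by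
    unfold dotProduct
    exact Fin.sum_univ_add (a := 6) (b := 6) _
  rw [h3]
  simp only [h1, h2]
  rfl

/-- Packet G-A2. -/
theorem stmtPos : StmtPos := by
  constructor
  · intro j l
    unfold Tcoef
    rw [Tmat_conj, Matrix.conjTranspose_single, star_one]
  · intro x u
    have hsum : ∑ j, ∑ l, (x j * star (x l)) • Tcoef j l = Tmat (Matrix.vecMulVec x (star x)) := by
      have h1 : Matrix.vecMulVec x (star x) = ∑ j, ∑ l, (x j * star (x l)) • Matrix.single j l 1 := by
        rw [Matrix.matrix_eq_sum_single (Matrix.vecMulVec x (star x))]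
        refine Finset.sum_congr rfl fun j _ => Finset.sum_congr rfl fun l _ => ?_
        rw [Matrix.smul_single, smul_eq_mul, mul_one]
        rfl
      have h2 : Tmat (Matrix.vecMulVec x (star x)) =
          Tlin (∑ j, ∑ l, (x j * star (x l)) • Matrix.single j l (1 : ℂ)) := by
        rw [← h1]; rfl
      rw [h2, map_sum]
      refine Finset.sum_congr rfl fun j _ => ?_
      rw [map_sum]
      refine Finset.sum_congr rfl fun l _ => ?_
      rw [map_smul]
      rfl
    have hval : 0 ≤ star u ⬝ᵥ (∑ j, ∑ l, (x j * star (x l)) • Tcoef j l).mulVec u := by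
      rw [hsum, Tmat_eq, blkd_quad]
      have b1 : blk₁ (Matrix.vecMulVec x (star x)) =
        Matrix.vecMulVec (fun i => x (Fin.castAdd 6 i)) (star fun i => x (Fin.castAdd 6 i)) := rfl
      have b2 : blk₂ (Matrix.vecMulVec x (star x)) =
        Matrix.vecMulVec (fun i => x (Fin.natAdd 6 i)) (star fun i => x (Fin.natAdd 6 i)) := rfl
      rw [b1, b2, Matrix.add_mulVec, Matrix.add_mulVec, dotProduct_add, dotProduct_add]
      exact add_nonneg (add_nonneg (quad1_nonneg _ _) (quad1_nonneg _ _))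
        (add_nonneg (quad2_nonneg _ _) (quad1_nonneg _ _))
    refine ⟨_, (Complex.nonneg_iff.1 hval).1, ?_⟩
    apply Complex.ext
    · simp
    · rw [← (Complex.nonneg_iff.1 hval).2]
      simp

end Pool.Agent.Helper75.GriffCE
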